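import Pool.Agent.Helper33.DA.AlgDiv
import Pool.Agent.Helper8.DE.Defs

/-!
Algebra of the divergence of the vector density, with coefficients of arbitrary curvature.
-/

set_option autoImplicit false
set_option linter.unusedSimpArgs false

open scoped Manifold ContDiff

namespace Pool.Agent.Helper33.DE

open Pool.Agent.Helper8.DC Pool.Agent.Helper8.DA Pool.Agent.Helper8.DE
open Pool.Agent.Helper33.DA (sum_wedge3 wedge3_smul_right trip_add_cov trip_sub_cov trip_sub_phi)

noncomputable section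

/-- the term with the curvature of the coefficients -/
theorem trip_G' (φ ψ : R3) (G : Fin 4 → Fin 4 → ℝ) (hG : ∀ l m, G l m = -G m l)
    (F : Fin 4 → Fin 4 → R3) :
    ∑ l, trip φ (Pi.single l 1) (fun m => G l m • ψ) F =
      2 * ∑ c, crossProduct φ ψ c * wedge G (cmp F c) := by
  have h1 : ∀ (l : Fin 4) (b c : Fin 3), wedge3 (Pi.single l 1)
      (cm1 (fun m => G l m • ψ) b) (cmp F c) = wedge3 (Pi.single l 1) (G l) (cmp F c) * ψ b := by
    intro l b c
    rw [← wedge3_smul_right]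
    rfl
  have h2 : ∀ c, ∑ l, wedge3 (Pi.single l 1) (G l) (cmp F c) = 2 * wedge G (cmp F c) :=
    fun c => sum_wedge3 G _ hG
  have h3 : ∀ l, trip φ (Pi.single l 1) (fun m => G l m • ψ) F =
      (φ 1 * ψ 2 - φ 2 * ψ 1) * wedge3 (Pi.single l 1) (G l) (cmp F 0) +
      (φ 2 * ψ 0 - φ 0 * ψ 2) * wedge3 (Pi.single l 1) (G l) (cmp F 1) +
      (φ 0 * ψ 1 - φ 1 * ψ 0) * wedge3 (Pi.single l 1) (G l) (cmp F 2) := by
    intro l
    simp only [trip, h1]
    ring
  simp only [h3, Finset.sum_add_distrib, ← Finset.mul_sum, h2, Fin.sum_univ_three, cross_apply]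
  simp only [Matrix.cons_val_zero, Matrix.cons_val_one, Matrix.cons_val]
  ring

/-- **E1.** -/
theorem alg_divG {N : ℕ} (A : Fin 4 → R3) (B : Fin 4 → Matrix (Fin N) (Fin N) ℝ)
    (hB : ∀ m r t, B m r t = -B m t r) (G : Fin N → Fin N → Fin 4 → Fin 4 → ℝ)
    (hG : ∀ r t l m, G r t l m = -G r t m l) (φ : Fin N → R3) (c : Fin N → Fin 4 → R3)
    (dc : Fin N → Fin 4 → Fin 4 → R3) (F : Fin 4 → Fin 4 → R3)
    (dF : Fin 4 → Fin 4 → Fin 4 → R3) (hF : ∀ l m, F l m = -F m l)
    (hdF : ∀ k l m, dF k l m = -dF k m l)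
    (h1 : ∀ r l m, dc r l m - dc r m l + crossProduct (A l) (c r m) - crossProduct (A m) (c r l) +
      ∑ t, (B l r t • c t m - B m r t • c t l) = crossProduct (F l m) (φ r) + ∑ t, G r t l m • φ t)
    (h2 : ∀ l m n, dF l m n + dF m n l + dF n l m + crossProduct (A l) (F m n) +
      crossProduct (A m) (F n l) + crossProduct (A n) (F l m) = 0) :
    ∑ l, ∑ r, (trip (c r l - crossProduct (A l) (φ r) - ∑ t, B l r t • φ t) (Pi.single l 1) (c r) F +
      trip (φ r) (Pi.single l 1) (dc r l) F + trip (φ r) (Pi.single l 1) (c r) (dF l)) =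
      ∑ r, (quad (c r) F + rest (φ r) F) + curvTerm G φ F := by
  -- the corrected second derivatives
  let dc' : Fin N → Fin 4 → Fin 4 → R3 := fun r l m =>
    (dc r l m + ∑ t, B l r t • c t m) - ∑ t, (1 / 2 : ℝ) • (G r t l m • φ t)
  have key : ∀ r, ∑ l, (trip (c r l - crossProduct (A l) (φ r)) (Pi.single l 1) (c r) F +
      trip (φ r) (Pi.single l 1) (dc' r l) F + trip (φ r) (Pi.single l 1) (c r) (dF l)) =
      quad (c r) F + rest (φ r) F := by
    intro r
    refine g_alg (φ r) A (c r) (dc' r) F dF hF hdF ?_ h2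
    intro l m
    have e1 := h1 r l m
    have e2 : ∑ t, (B l r t • c t m - B m r t • c t l) =
        ∑ t, B l r t • c t m - ∑ t, B m r t • c t l := Finset.sum_sub_distrib _ _
    have e3 : ∑ t, (1 / 2 : ℝ) • (G r t m l • φ t) = -∑ t, (1 / 2 : ℝ) • (G r t l m • φ t) := by
      rw [← Finset.sum_neg_distrib]
      refine Finset.sum_congr rfl fun t _ => ?_
      rw [hG r t m l, neg_smul, smul_neg]
    have e4 : ∑ t, G r t l m • φ t = ∑ t, (1 / 2 : ℝ) • (G r t l m • φ t) +
        ∑ t, (1 / 2 : ℝ) • (G r t l m • φ t) := by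
      rw [← Finset.sum_add_distrib]
      refine Finset.sum_congr rfl fun t _ => ?_
      rw [← add_smul]
      norm_num
    rw [e2, e4] at e1
    simp only [dc']
    rw [e3]
    have e5 : crossProduct (F l m) (φ r) = dc r l m - dc r m l + crossProduct (A l) (c r m) -
        crossProduct (A m) (c r l) + (∑ t, B l r t • c t m - ∑ t, B m r t • c t l) -
        (∑ t, (1 / 2 : ℝ) • (G r t l m • φ t) + ∑ t, (1 / 2 : ℝ) • (G r t l m • φ t)) := by
      rw [e1]
      abel
    rw [e5]
    abel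
  rw [← Finset.sum_congr rfl fun r _ => key r, Finset.sum_comm]
  rw [← sub_eq_iff_eq_add', ← Finset.sum_sub_distrib]
  -- the difference
  have hd : ∀ r, ∑ l, (trip (c r l - crossProduct (A l) (φ r) - ∑ t, B l r t • φ t)
      (Pi.single l 1) (c r) F + trip (φ r) (Pi.single l 1) (dc r l) F +
      trip (φ r) (Pi.single l 1) (c r) (dF l)) -
      ∑ l, (trip (c r l - crossProduct (A l) (φ r)) (Pi.single l 1) (c r) F +
      trip (φ r) (Pi.single l 1) (dc' r l) F + trip (φ r) (Pi.single l 1) (c r) (dF l)) =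
      -(∑ l, ∑ t, B l r t * trip (φ t) (Pi.single l 1) (c r) F +
        ∑ l, ∑ t, B l r t * trip (φ r) (Pi.single l 1) (c t) F) +
        ∑ t, ∑ c, crossProduct (φ r) (φ t) c * wedge (G r t) (cmp F c) := by
    intro r
    have hG0 : ∑ t, ∑ c, crossProduct (φ r) (φ t) c * wedge (G r t) (cmp F c) =
        ∑ l, ∑ t, (1 / 2 : ℝ) *
          trip (φ r) (Pi.single l 1) (fun m => G r t l m • φ t) F := by
      rw [Finset.sum_comm (s := (Finset.univ : Finset (Fin 4)))]
      refine Finset.sum_congr rfl fun t _ => ?_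
      rw [← Finset.mul_sum, trip_G' (φ r) (φ t) (G r t) (hG r t) F]
      ring
    rw [hG0, ← Finset.sum_sub_distrib, ← Finset.sum_add_distrib, ← Finset.sum_neg_distrib,
      ← Finset.sum_add_distrib]
    refine Finset.sum_congr rfl fun l _ => ?_
    have f1 : trip (∑ t, B l r t • φ t) (Pi.single l 1) (c r) F =
        ∑ t, B l r t * trip (φ t) (Pi.single l 1) (c r) F := trip_sum_phi _ _ _ _ _ _
    have f2 : trip (φ r) (Pi.single l 1) (dc' r l) F =
        trip (φ r) (Pi.single l 1) (dc r l) F +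
        ∑ t, B l r t * trip (φ r) (Pi.single l 1) (c t) F -
        ∑ t, (1 / 2 : ℝ) * trip (φ r) (Pi.single l 1) (fun m => G r t l m • φ t) F := by
      rw [← trip_sum_cov, ← trip_sum_cov, ← trip_add_cov, ← trip_sub_cov]
    rw [trip_sub_phi, f1, f2]
    ring
  rw [Finset.sum_congr rfl fun r _ => hd r, Finset.sum_add_distrib, Finset.sum_neg_distrib,
    Finset.sum_add_distrib]
  have hs : ∑ r, ∑ l, ∑ t, B l r t * trip (φ r) (Pi.single l 1) (c t) F =
      -∑ r, ∑ l, ∑ t, B l r t * trip (φ t) (Pi.single l 1) (c r) F := by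
    rw [← Finset.sum_neg_distrib]
    have a1 : ∀ f : Fin N → Fin 4 → Fin N → ℝ,
        ∑ r, ∑ l, ∑ t, f r l t = ∑ r, ∑ l, ∑ t, f t l r := by
      intro f
      rw [Finset.sum_comm]
      conv_rhs => rw [Finset.sum_comm]
      refine Finset.sum_congr rfl fun l _ => ?_
      rw [Finset.sum_comm]
    rw [a1]
    refine Finset.sum_congr rfl fun r _ => ?_
    rw [← Finset.sum_neg_distrib]
    refine Finset.sum_congr rfl fun l _ => ?_
    rw [← Finset.sum_neg_distrib]
    refine Finset.sum_congr rfl fun t _ => ?_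
    rw [hB l t r]
    ring
  rw [hs]
  unfold curvTerm
  ring

end

end Pool.Agent.Helper33.DE
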